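import Pool.Agent.W610.HY.Stm2

/-! Project HY (owner helper610): the two integrals annihilate each other across every operator of
the commutant. -/

set_option autoImplicit false

namespace Pool.Agent.W797.HY.ABV

open MeasureTheory Set Metric Filter Topology
open Pool.Agent.W610.HY

section alg

variable {X : Type} [NormedAddCommGroup X] [NormedSpace ℂ X] (T S : X →L[ℂ] X)

theorem res_mul {z : ℂ} (hz : z ∈ resolventSet ℂ T) :
    resolvent T z * (algebraMap ℂ (X →L[ℂ] X) z - T) = 1 := by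
  unfold resolvent
  exact Ring.inverse_mul_cancel _ hz

theorem mul_res {z : ℂ} (hz : z ∈ resolventSet ℂ T) :
    (algebraMap ℂ (X →L[ℂ] X) z - T) * resolvent T z = 1 := by
  unfold resolvent
  exact Ring.mul_inverse_cancel _ hz

theorem comm_res (hST : S * T = T * S) {z : ℂ} (hz : z ∈ resolventSet ℂ T) :
    resolvent T z * S = S * resolvent T z := by
  have h1 : S * (algebraMap ℂ (X →L[ℂ] X) z - T) = (algebraMap ℂ (X →L[ℂ] X) z - T) * S := by
    rw [mul_sub, sub_mul, hST, Algebra.commutes]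
  calc resolvent T z * S
      = resolvent T z * (S * ((algebraMap ℂ (X →L[ℂ] X) z - T) * resolvent T z)) := by
        rw [mul_res T hz, mul_one]
    _ = resolvent T z * (algebraMap ℂ (X →L[ℂ] X) z - T) * (S * resolvent T z) := by
        rw [← mul_assoc S, h1]; simp only [mul_assoc]
    _ = S * resolvent T z := by rw [res_mul T hz, one_mul]

theorem res_id {z w : ℂ} (hz : z ∈ resolventSet ℂ T) (hw : w ∈ resolventSet ℂ T) :
    resolvent T w - resolvent T z = (z - w) • (resolvent T w * resolvent T z) := by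
  have h1 : resolvent T w * (algebraMap ℂ (X →L[ℂ] X) z - T) * resolvent T z = resolvent T w := by
    rw [mul_assoc, mul_res T hz, mul_one]
  have h2 : resolvent T w * (algebraMap ℂ (X →L[ℂ] X) w - T) * resolvent T z = resolvent T z := by
    rw [res_mul T hw, one_mul]
  have h3 : resolvent T w - resolvent T z = resolvent T w *
      ((algebraMap ℂ (X →L[ℂ] X) z - T) - (algebraMap ℂ (X →L[ℂ] X) w - T)) * resolvent T z := by
    rw [mul_sub, sub_mul, h1, h2]
  rw [h3, sub_sub_sub_cancel_right, ← map_sub, ← Algebra.commutes, mul_assoc,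
    Algebra.algebraMap_eq_smul_one, smul_mul_assoc, one_mul]

theorem key (hST : S * T = T * S) {z w : ℂ} (hz : z ∈ resolventSet ℂ T)
    (hw : w ∈ resolventSet ℂ T) (hne : w - z ≠ 0) (x : X) (y : X →L[ℂ] ℂ) :
    y (resolvent T w (S (resolvent T z x))) =
      (w - z)⁻¹ * (y (S (resolvent T z x)) - y (resolvent T w (S x))) := by
  have h1 : ∀ v : X, resolvent T w (S v) = S (resolvent T w v) := fun v =>
    congrArg (fun L : X →L[ℂ] X => L v) (comm_res T S hST hw)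
  have h2 : resolvent T w x - resolvent T z x = (z - w) • (resolvent T w (resolvent T z x)) :=
    congrArg (fun L : X →L[ℂ] X => L x) (res_id T hz hw)
  have h3 : y (S (resolvent T w x - resolvent T z x)) =
      y (S ((z - w) • (resolvent T w (resolvent T z x)))) := by rw [h2]
  rw [map_sub, map_sub, map_smul, map_smul, smul_eq_mul] at h3
  rw [h1, h1]
  field_simp
  linear_combination h3

end alg

theorem meas_on {E : Type} [NormedAddCommGroup E] {P : Set ℂ} (hP : IsOpen P) {F : ℂ → E}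
    (hF : ContinuousOn F P) (c : ℂ) (r : ℝ)
    (hres : ∀ᵐ θ ∂(volume.restrict (Ioc (0:ℝ) (2 * Real.pi))), circleMap c r θ ∈ P) :
    AEStronglyMeasurable (fun θ => F (circleMap c r θ))
      (volume.restrict (Ioc (0:ℝ) (2 * Real.pi))) := by
  have hQ : IsOpen {θ : ℝ | circleMap c r θ ∈ P} := hP.preimage (continuous_circleMap c r)
  have h1 : AEStronglyMeasurable (fun θ => F (circleMap c r θ))
      ((volume.restrict (Ioc (0:ℝ) (2 * Real.pi))).restrict {θ : ℝ | circleMap c r θ ∈ P}) :=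
    ContinuousOn.aestronglyMeasurable
      (hF.comp (continuous_circleMap c r).continuousOn (fun θ h => h)) hQ.measurableSet
  have h2 := Measure.restrict_eq_self_of_ae_mem (s := {θ : ℝ | circleMap c r θ ∈ P}) hres
  rwa [h2] at h1

theorem unit_norm (θ : ℝ) : ‖circleMap 0 1 θ‖ = 1 := by
  simp [circleMap]

/-- integrability of the integrand -/
theorem int_on {E : Type} [NormedAddCommGroup E] [NormedSpace ℂ E] {P : Set ℂ} (hP : IsOpen P)
    {F : ℂ → E} (hF : ContinuousOn F P) (c : ℂ) (r : ℝ) (h : ℝ → ℂ) (hm : Measurable h)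
    (hres : ∀ᵐ θ ∂(volume.restrict (Ioc (0:ℝ) (2 * Real.pi))), circleMap c r θ ∈ P) (K : ℝ)
    (hb : ∀ᵐ θ ∂(volume.restrict (Ioc (0:ℝ) (2 * Real.pi))),
      ‖h θ‖ * ‖F (circleMap c r θ)‖ ≤ K) :
    Integrable (fun θ => (h θ * circleMap 0 1 θ) • F (circleMap c r θ))
      (volume.restrict (Ioc (0:ℝ) (2 * Real.pi))) := by
  refine Integrable.of_bound (C := K) ?_ ?_
  · exact (hm.aestronglyMeasurable.mul
      (continuous_circleMap 0 1).aestronglyMeasurable).smul (meas_on hP hF c r hres)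
  · filter_upwards [hb] with θ hθ
    rw [norm_smul, norm_mul, unit_norm, mul_one]
    exact hθ

theorem norm_circle (c : ℂ) {r : ℝ} (hr : 0 < r) (θ : ℝ) : ‖circleMap c r θ - c‖ = r := by
  simp [circleMap, abs_of_pos hr]

theorem contR {X : Type} [NormedAddCommGroup X] [NormedSpace ℂ X] [CompleteSpace X]
    (T : X →L[ℂ] X) : ContinuousOn (fun z => resolvent T z) (resolventSet ℂ T) := fun _ hz =>
  (spectrum.hasDerivAt_resolvent_const_left hz).continuousAt.continuousWithinAt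

theorem contRx {X : Type} [NormedAddCommGroup X] [NormedSpace ℂ X] [CompleteSpace X]
    (T : X →L[ℂ] X) (v : X) : ContinuousOn (fun z => resolvent T z v) (resolventSet ℂ T) :=
  (contR T).clm_apply continuousOn_const

theorem contyR {X : Type} [NormedAddCommGroup X] [NormedSpace ℂ X] [CompleteSpace X]
    (T : X →L[ℂ] X) (y : X →L[ℂ] ℂ) :
    ContinuousOn (fun z => y.comp (resolvent T z)) (resolventSet ℂ T) :=
  continuousOn_const.clm_comp (contR T)

/-- the abstract exchange of integrals -/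
theorem swap0 (μ : Measure ℝ) [IsFiniteMeasure μ] (a b : ℝ → ℂ) (k : ℝ × ℝ → ℂ)
    (ia : Integrable a μ) (ib : Integrable b μ) (hk : Continuous k) (K : ℝ)
    (hkb : ∀ p, ‖k p‖ ≤ K) (h0 : ∀ φ, ∫ θ, a θ * k (θ, φ) ∂μ = 0) :
    ∫ θ, a θ * ∫ φ, k (θ, φ) * b φ ∂μ ∂μ = 0 := by
  have iprod : Integrable (fun p : ℝ × ℝ => k p * (a p.1 * b p.2)) (μ.prod μ) :=
    (ia.mul_prod ib).bdd_mul hk.aestronglyMeasurable (Eventually.of_forall hkb)
  have e1 : ∀ θ, a θ * ∫ φ, k (θ, φ) * b φ ∂μ = ∫ φ, k (θ, φ) * (a θ * b φ) ∂μ := by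
    intro θ
    rw [← integral_const_mul]
    refine integral_congr_ae (Eventually.of_forall fun φ => ?_)
    simp only
    ring
  simp_rw [e1]
  rw [integral_integral_swap (f := fun θ φ => k (θ, φ) * (a θ * b φ)) iprod]
  have e2 : ∀ φ, ∫ θ, k (θ, φ) * (a θ * b φ) ∂μ = 0 := by
    intro φ
    have e3 : ∀ θ, k (θ, φ) * (a θ * b φ) = (a θ * k (θ, φ)) * b φ := fun θ => by ring
    simp_rw [e3]
    rw [integral_mul_const, h0, zero_mul]
  simp_rw [e2]
  simp

/-- the abstract form of the statement -/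
theorem abs_main {X : Type} [NormedAddCommGroup X] [NormedSpace ℂ X] [CompleteSpace X]
    (μ : Measure ℝ) [IsFiniteMeasure μ] (a m : ℝ → ℂ) (f : ℝ → X) (F : ℝ → X →L[ℂ] ℂ)
    (S : X →L[ℂ] X) (x : X) (y : X →L[ℂ] ℂ) (k : ℝ × ℝ → ℂ)
    (ia : Integrable a μ) (im : Integrable m μ)
    (i₁ : Integrable (fun θ => a θ • f θ) μ) (i₂ : Integrable (fun φ => m φ • F φ) μ)
    (hk : Continuous k) (K : ℝ) (hkb : ∀ p, ‖k p‖ ≤ K)
    (h1 : ∀ φ, ∫ θ, a θ * k (θ, φ) ∂μ = 0) (h2 : ∀ θ, ∫ φ, k (θ, φ) * m φ ∂μ = 0)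
    (hkey : ∀ᵐ θ ∂μ, ∀ᵐ φ ∂μ, F φ (S (f θ)) = k (θ, φ) * (y (S (f θ)) - F φ (S x))) :
    (∫ φ, m φ • F φ ∂μ) (S (∫ θ, a θ • f θ ∂μ)) = 0 := by
  obtain ⟨B, hB⟩ : ∃ B : X →L[ℂ] ℂ, B = ∫ φ, m φ • F φ ∂μ := ⟨_, rfl⟩
  rw [← hB]
  have ib : ∀ v : X, Integrable (fun φ => m φ * F φ v) μ := by
    intro v
    exact i₂.apply_continuousLinearMap v
  have hBv : ∀ v : X, B v = ∫ φ, m φ * F φ v ∂μ := by
    intro v
    rw [hB, ContinuousLinearMap.integral_apply i₂]
    refine integral_congr_ae (Eventually.of_forall fun θ => ?_)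
    rfl
  have s1 : B (S (∫ θ, a θ • f θ ∂μ)) = ∫ θ, a θ * B (S (f θ)) ∂μ := by
    have h3 := (B.comp S).integral_comp_comm i₁
    have h4 : (B.comp S) (∫ θ, a θ • f θ ∂μ) = B (S (∫ θ, a θ • f θ ∂μ)) := rfl
    rw [← h4, ← h3]
    refine integral_congr_ae (Eventually.of_forall fun θ => ?_)
    have h5 : (B.comp S) (a θ • f θ) = a θ * (B.comp S) (f θ) := by
      rw [map_smul, smul_eq_mul]
    exact h5
  rw [s1]
  have hslice : ∀ θ : ℝ, Continuous (fun φ : ℝ => k (θ, φ)) :=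
    fun θ => hk.comp (Continuous.prodMk_right θ)
  have s2 : ∀ᵐ θ ∂μ, a θ * B (S (f θ)) = a θ * ∫ φ, k (θ, φ) * (-(m φ * F φ (S x))) ∂μ := by
    filter_upwards [hkey] with θ hθ
    rw [hBv]
    congr 1
    have j1 : Integrable (fun φ => (k (θ, φ) * m φ) * y (S (f θ))) μ := by
      refine Integrable.mul_const ?_ _
      exact im.bdd_mul (hslice θ).aestronglyMeasurable
        (Eventually.of_forall fun φ => hkb (θ, φ))
    have j2 : Integrable (fun φ => k (θ, φ) * (-(m φ * F φ (S x)))) μ :=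
      (ib (S x)).neg.bdd_mul (hslice θ).aestronglyMeasurable
        (Eventually.of_forall fun φ => hkb (θ, φ))
    have t1 : (∫ φ, m φ * F φ (S (f θ)) ∂μ) =
        ∫ φ, (k (θ, φ) * m φ) * y (S (f θ)) + k (θ, φ) * (-(m φ * F φ (S x))) ∂μ := by
      refine integral_congr_ae ?_
      filter_upwards [hθ] with φ hφ
      rw [hφ]
      ring
    rw [t1, integral_add j1 j2, integral_mul_const, h2 θ, zero_mul, zero_add]
  rw [integral_congr_ae s2]
  exact swap0 μ a (fun φ => -(m φ * F φ (S x))) k ia (ib (S x)).neg hk K hkb h1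

theorem int_scalar (h : ℝ → ℂ) (hm : Measurable h)
    (hb : ∀ᵐ θ ∂(volume.restrict (Ioc (0:ℝ) (2 * Real.pi))), ‖h θ‖ ≤ 1) :
    Integrable (fun θ => h θ * circleMap 0 1 θ) (volume.restrict (Ioc (0:ℝ) (2 * Real.pi))) := by
  refine Integrable.of_bound (C := 1) ?_ ?_
  · exact hm.aestronglyMeasurable.mul (continuous_circleMap 0 1).aestronglyMeasurable
  · filter_upwards [hb] with θ hθ
    rw [norm_mul, unit_norm, mul_one]
    exact hθ

theorem main : Pool.Agent.W610.HY.ABV := by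
  intro X _ _ _ T S x y c₁ c₂ r₁ r₂ h₁ h₂ hST G₁ G₂ hd
  have hpi : (0 : ℝ) ≤ 2 * Real.pi := by positivity
  have hP : IsOpen (resolventSet ℂ T) := spectrum.isOpen_resolventSet T
  have hd₁ := G₁.pos
  have hd₂ := G₂.pos
  have hdist : ∀ θ φ : ℝ, ‖c₁ - c₂‖ - r₁ - r₂ ≤ ‖circleMap c₂ r₂ φ - circleMap c₁ r₁ θ‖ := by
    intro θ φ
    have e1 := norm_circle c₁ hd₁ θ
    have e2 := norm_circle c₂ hd₂ φ
    have e3 : c₁ - c₂ = (circleMap c₂ r₂ φ - c₂) - (circleMap c₁ r₁ θ - c₁) -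
        (circleMap c₂ r₂ φ - circleMap c₁ r₁ θ) := by ring
    have e4 : ‖c₁ - c₂‖ ≤ ‖circleMap c₂ r₂ φ - c₂‖ + ‖circleMap c₁ r₁ θ - c₁‖ +
        ‖circleMap c₂ r₂ φ - circleMap c₁ r₁ θ‖ := by
      calc ‖c₁ - c₂‖ = ‖(circleMap c₂ r₂ φ - c₂) - (circleMap c₁ r₁ θ - c₁) -
          (circleMap c₂ r₂ φ - circleMap c₁ r₁ θ)‖ := by rw [← e3]
        _ ≤ _ := (norm_sub_le _ _).trans (by gcongr; exact norm_sub_le _ _)
    linarith
  have hdpos : 0 < ‖c₁ - c₂‖ - r₁ - r₂ := by linarith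
  have hne : ∀ θ φ : ℝ, circleMap c₂ r₂ φ - circleMap c₁ r₁ θ ≠ 0 := by
    intro θ φ h0
    have := hdist θ φ
    rw [h0, norm_zero] at this
    linarith
  have hout₁ : ∀ φ : ℝ, r₁ < ‖circleMap c₂ r₂ φ - c₁‖ := by
    intro φ
    have e2 := norm_circle c₂ hd₂ φ
    have e4 : ‖c₁ - c₂‖ ≤ ‖circleMap c₂ r₂ φ - c₂‖ + ‖circleMap c₂ r₂ φ - c₁‖ := by
      have e3 : c₁ - c₂ = (circleMap c₂ r₂ φ - c₂) - (circleMap c₂ r₂ φ - c₁) := by ring
      rw [e3]
      exact norm_sub_le _ _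
    linarith
  have hout₂ : ∀ θ : ℝ, r₂ < ‖circleMap c₁ r₁ θ - c₂‖ := by
    intro θ
    have e2 := norm_circle c₁ hd₁ θ
    have e4 : ‖c₁ - c₂‖ ≤ ‖circleMap c₁ r₁ θ - c₂‖ + ‖circleMap c₁ r₁ θ - c₁‖ := by
      have e3 : c₁ - c₂ = (circleMap c₁ r₁ θ - c₂) - (circleMap c₁ r₁ θ - c₁) := by ring
      rw [e3]
      exact norm_sub_le _ _
    linarith
  have hkc : Continuous (fun p : ℝ × ℝ => (circleMap c₂ r₂ p.2 - circleMap c₁ r₁ p.1)⁻¹) := by
    refine Continuous.inv₀ ?_ (fun p => hne p.1 p.2)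
    exact ((continuous_circleMap c₂ r₂).comp continuous_snd).sub
      ((continuous_circleMap c₁ r₁).comp continuous_fst)
  have hkb : ∀ p : ℝ × ℝ, ‖(circleMap c₂ r₂ p.2 - circleMap c₁ r₁ p.1)⁻¹‖ ≤
      (‖c₁ - c₂‖ - r₁ - r₂)⁻¹ := by
    intro p
    rw [norm_inv]
    exact inv_anti₀ hdpos (hdist p.1 p.2)
  unfold IV
  rw [intervalIntegral.integral_of_le hpi, intervalIntegral.integral_of_le hpi]
  refine abs_main (volume.restrict (Ioc (0:ℝ) (2 * Real.pi)))
    (fun θ => h₁ θ * circleMap 0 1 θ) (fun φ => h₂ φ * circleMap 0 1 φ)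
    (fun θ => resolvent T (circleMap c₁ r₁ θ) x)
    (fun φ => y.comp (resolvent T (circleMap c₂ r₂ φ))) S x y
    (fun p => (circleMap c₂ r₂ p.2 - circleMap c₁ r₁ p.1)⁻¹)
    (int_scalar h₁ G₁.meas G₁.le_one) (int_scalar h₂ G₂.meas G₂.le_one)
    (int_on hP (contRx T x) c₁ r₁ h₁ G₁.meas G₁.res 1 G₁.bound)
    (int_on hP (contyR T y) c₂ r₂ h₂ G₂.meas G₂.res 1 G₂.bound)
    hkc _ hkb ?_ ?_ ?_
  · intro φ
    have h0 := G₁.van _ (hout₁ φ)
    rw [intervalIntegral.integral_of_le hpi] at h0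
    have e : ∀ θ : ℝ, h₁ θ * circleMap 0 1 θ * (circleMap c₂ r₂ φ - circleMap c₁ r₁ θ)⁻¹ =
        -(h₁ θ * (circleMap 0 1 θ / (circleMap c₁ r₁ θ - circleMap c₂ r₂ φ))) := by
      intro θ
      have e1 : (circleMap c₂ r₂ φ - circleMap c₁ r₁ θ)⁻¹ =
          -(circleMap c₁ r₁ θ - circleMap c₂ r₂ φ)⁻¹ := by
        rw [← inv_neg, neg_sub]
      rw [e1, div_eq_mul_inv]
      ring
    simp only [e]
    rw [integral_neg, h0, neg_zero]
  · intro θ
    have h0 := G₂.van _ (hout₂ θ)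
    rw [intervalIntegral.integral_of_le hpi] at h0
    have e : ∀ φ : ℝ, (circleMap c₂ r₂ φ - circleMap c₁ r₁ θ)⁻¹ * (h₂ φ * circleMap 0 1 φ) =
        h₂ φ * (circleMap 0 1 φ / (circleMap c₂ r₂ φ - circleMap c₁ r₁ θ)) := by
      intro φ
      rw [div_eq_mul_inv]
      ring
    simp only [e]
    exact h0
  · filter_upwards [G₁.res] with θ hθ
    filter_upwards [G₂.res] with φ hφ
    exact key T S hST hθ hφ (hne θ φ) x y

end Pool.Agent.W797.HY.ABV
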